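import Mathlib
import Pool.Agent.H803R3.Eff

/-!
Gap-free graphs: `reg I^(q+1) = reg I^q + 2` for every `q ≥ reg I - 1`.
-/

set_option autoImplicit false

namespace Pool.Agent.Results.MP_081cfe_al.Increments

open Pool.Agent.H803R3

/-- If `ν(G) = 1` then `reg I(G)^(q+1) = reg I(G)^q + 2` for every integer
`q ≥ reg I(G) - 1`, over every field; both regularities are finite. -/
theorem result (K : Type*) [Field K] {n : ℕ} (G : SimpleGraph (Fin n))
    (hE : ∃ a b, G.Adj a b)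
    (hG : ∀ a b c d, G.Adj a b → G.Adj c d → a ≠ c → a ≠ d → b ≠ c → b ≠ d →
      G.Adj a c ∨ G.Adj a d ∨ G.Adj b c ∨ G.Adj b d)
    (q : ℕ) (hq : reg (edgeIdeal K G) ≤ (q : ℕ∞) + 1) :
    reg (edgeIdeal K G ^ (q + 1)) = reg (edgeIdeal K G ^ q) + 2 ∧
      reg (edgeIdeal K G ^ q) ≠ ⊤ := by
  have hq' : reg (edgeIdeal K G) ≤ ((q + 1 : ℕ) : ℕ∞) := by
    rw [Nat.cast_add, Nat.cast_one]; exact hq
  have h1 := reg_pow_eq G hE hG q hq'
  have h2 := reg_pow_eq G hE hG (q + 1) (hq'.trans (by exact_mod_cast Nat.le_succ _))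
  rw [h1, h2]
  refine ⟨?_, ENat.coe_ne_top _⟩
  rw [Nat.mul_add, Nat.cast_add, mul_one, Nat.cast_ofNat]

end Pool.Agent.Results.MP_081cfe_al.Increments
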